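import Pool.Agent.Y333.RP.Gap

/-!
# The exact difference between reg I(G)^q and the bound 2q + reg I(G) − 2

Definitions used (files `Pool.Agent.H677R3.RegKoszul`, `RegDeg` and `AbSusp`):
* `edgeIdeal k G` is the ideal of `k[x_0,…,x_{n-1}]` spanned by the `x_i x_j`, `i` adjacent to `j`;
* `TorNe J i e`: the Koszul homology `H_i(x_1,…,x_n; J) = Tor_i(J, k)` is nonzero in internal
  degree `i + e`;
* `IsReg J r`: `r` is the greatest `e` such that `TorNe J i e` for some `i`, i.e. `reg J = r`;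
* `away G x y`: the graph which has only the edges `uv` of `G` with `u`, `v` different from `x`, `y`
  and not adjacent to them.
-/

universe u

namespace Pool.Agent.Results.MP_b26ec7_al.ExactDefect

open Pool.Agent.H677R3.EdgeReg Pool.Agent.H677R3.Ab Pool.Agent.Y333.RP

/-- Let `G` be a graph with an edge, `r = reg I(G)` and `σ` the greatest among `1` and the
regularities of the edge ideals of the graphs `away G x y`, `xy` an edge. Then `σ + 1 ≤ r` and
`reg I(G)^q = 2 q + r - 2 - min (q - 1) (r - 1 - σ)` for every `q ≥ 1`. -/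
theorem result : ∀ (k : Type u) [Field k] (n : ℕ) (G : SimpleGraph (Fin n)),
    (∃ u v, G.Adj u v) → ∃ r σ : ℕ, IsReg (edgeIdeal k G) r ∧
      IsGreatest ({1} ∪ {s | ∃ x y, G.Adj x y ∧ IsReg (edgeIdeal k (away G x y)) s}) σ ∧
      σ + 1 ≤ r ∧
      ∀ q : ℕ, 1 ≤ q → ∃ s : ℕ, IsReg ((edgeIdeal k G) ^ q) s ∧
        s + 2 + min (q - 1) (r - 1 - σ) = 2 * q + r := by
  intro k _ n G hG
  obtain ⟨r, σ, h1, h2, h3, h4⟩ := formula' k G hG
  have hσ : 1 ≤ σ := h2.2 (Or.inl rfl)
  exact ⟨r, σ, h1, h2, h3, fun q hq => ⟨_, h4 q hq, by omega⟩⟩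

end Pool.Agent.Results.MP_b26ec7_al.ExactDefect
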